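import Mathlib
import Pool.Agent.H983R3.Main

/-! Statements of the project AD (MP_28f3fb_gt): covers of hyperbolic space with controlled growth in
every dimension. -/

set_option autoImplicit false

namespace Pool.Agent.Y920.AD

open Pool.Agent.H983R3

/-- AD-TRI -/
def S_TRI : Prop := ∀ (d : ℕ) (p q r : Hyp d), hdist p r ≤ hdist p q + hdist q r

/-! the one-dimensional version of the labels of `H983R3.Core2` -/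

/-- birth level of a line -/
noncomputable def kap1 (P : Par) (p : ℝ) : ℤ := sInf {k : ℤ | P.L1 k p}

open Classical in
/-- base label at level `n` -/
noncomputable def b1 (P : Par) (n : ℤ) (y : ℝ) : ℤ × ℤ :=
  if h : ∃ p, P.L1 (n - 1) p ∧ (p - P.u n / 3 ≤ y ∧ y < p + P.u n / 3) then
    (kap1 P h.choose, P.cell (kap1 P h.choose) y) else (n, P.cell n y)

open Classical in
/-- full label at level `n` -/
noncomputable def ell1 (P : Par) (n : ℤ) (y : ℝ) : ℤ × ℤ :=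
  if h : ∃ q, P.L1 n q ∧ |y - q| < P.u (n + 1) / 9 then b1 P (kap1 P h.choose - 1) y
  else b1 P n y

/-- AD-MULT1 -/
def S_MULT1 : Prop := ∀ (P : Par) (n : ℤ) (v : ℝ), P.L1 (n + 3) v →
  ∃ s : Finset (ℤ × ℤ), s.card ≤ 2 ∧
    ∀ y, |y - v| < P.u (n + 3) → ell1 P n y ∈ s ∧ ell1 P (n + 1) y ∈ s

/-- AD-GROW1 -/
def S_GROW1 : Prop := ∀ P : Par, ∃ K : ℕ, ∀ (L : ℤ × ℤ) (m n : ℤ), m ≤ n → ∀ y0 : ℝ,
  ∃ C : Finset ℝ, C.card ≤ K * ((n - m).toNat + 1) ∧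
    ∀ y : ℝ, |y - y0| ≤ P.u m → ell1 P n y = L → ∃ c ∈ C, |y - c| < 3 * P.u n

/-- `Hyp e` has, for every `r`, a labelling with `r`-multiplicity at most `m + 1` whose labels occupy,
at every level, at most linearly many boxes (also after thickening by `r`). -/
def Fac (e m : ℕ) : Prop := ∀ (P : Par) (r : ℝ), 0 ≤ r → Real.exp (2 * r) ≤ P.l →
  ∃ (Lab : Type) (lab : Hyp e → Lab) (K : ℕ) (D : ℝ),
    (∀ z0 : Hyp e, ∃ s : Finset Lab, s.card ≤ m + 1 ∧ ∀ z, hdist z0 z ≤ r → lab z ∈ s) ∧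
    ∀ (L : Lab) (x : Hyp e) (T : ℕ) (n : ℤ), ∃ C : Finset (EuclideanSpace ℝ (Fin (e - 1))),
      C.card ≤ K * (T + 1) ∧ ∀ y z : Hyp e, lab z = L → hdist y z ≤ r → hdist x y ≤ T →
        P.lev y.h = n → ∃ c ∈ C, ‖y.x - c‖ ≤ D * P.u n

/-- AD-FAC3 -/
def S_FAC3 : Prop := S_TRI → Fac 3 2

/-- AD-FAC2 -/
def S_FAC2 : Prop := S_TRI → S_MULT1 → S_GROW1 → Fac 2 1

/-- AD-PACK -/
def S_PACK : Prop := ∀ (d : ℕ) (P : Par) (ε E : ℝ), 0 < ε → ∃ B : ℕ, ∀ (A : Set (Hyp d)) (n : ℤ),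
  (∀ x ∈ A, ∀ y ∈ A, x ≠ y → ε ≤ hdist x y) → (∀ x ∈ A, P.lev x.h = n) →
  (∀ x ∈ A, ∀ y ∈ A, ‖x.x - y.x‖ ≤ E * P.u n) → A.Finite ∧ A.ncard ≤ B

/-- AD-BLK -/
def S_BLK : Prop := ∀ d : ℕ, 2 ≤ d → ∃ (e : Fin (d / 2) → ℕ) (π : ∀ i, Hyp d → Hyp (e i)),
  (∀ i, e i = 2 ∨ e i = 3) ∧ (∑ i, (e i - 1) = d - 1) ∧ (∀ i x, (π i x).h = x.h) ∧
  (∀ i x y, ‖(π i x).x - (π i y).x‖ ≤ ‖x.x - y.x‖) ∧
  (∀ x y, ‖x.x - y.x‖ ≤ ∑ i, ‖(π i x).x - (π i y).x‖)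

/-- AD-COL -/
def S_COL : Prop := ∀ (f k : ℕ) (m : Fin f → ℕ) (Lab : Fin f → Type)
  (S : ∀ i, ℕ → Set (Lab i)), (∀ i j, S i j ⊆ S i (j + 1)) → (∀ i, (S i 0).Nonempty) →
  (∀ i, ∃ s : Finset (Lab i), s.card ≤ m i + 1 ∧ S i k ⊆ ↑s) → ∑ i, m i < k →
  ∃ j < k, ∀ i, S i j = S i (j + 1)

/-- AD-CNT (uses S_PACK as a hypothesis) -/
def S_CNT : Prop := ∀ (d : ℕ) (P : Par) (f : ℕ) (e : Fin f → ℕ) (π : ∀ i, Hyp d → Hyp (e i))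
  (ε : ℝ) (K : ℕ) (D : ℝ), 0 < ε → (∀ i x, (π i x).h = x.h) →
  (∀ x y, ‖x.x - y.x‖ ≤ ∑ i, ‖(π i x).x - (π i y).x‖) →
  ∃ C : ℝ, 0 ≤ C ∧ ∀ A : Set (Hyp d), (∀ x ∈ A, ∀ y ∈ A, x ≠ y → ε ≤ hdist x y) →
    (∀ (x : Hyp d) (T : ℕ) (n : ℤ) (i : Fin f),
      ∃ Ci : Finset (EuclideanSpace ℝ (Fin (e i - 1))), Ci.card ≤ K * (T + 1) ∧
        ∀ y ∈ A, hdist x y ≤ T → P.lev y.h = n → ∃ c ∈ Ci, ‖(π i y).x - c‖ ≤ D * P.u n) →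
    GrowthLE A (fun t => C * (1 + t) ^ (f + 1))

end Pool.Agent.Y920.AD
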