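import Mathlib
import Pool.Agent.Y920.AD.Stm

set_option autoImplicit false

namespace Pool.Agent.Y920.AD

open Pool.Agent.H983R3

/-- the point of the upper half plane with coordinates `a`, `h` -/
def upt (a h : ℝ) (hh : 0 < h) : UpperHalfPlane := ⟨⟨a, h⟩, hh⟩

lemma dist_upt (a h : ℝ) (hh : 0 < h) (b k : ℝ) (hk : 0 < k) :
    dist (upt a h hh) (upt b k hk) = Real.arcosh (1 + ((a - b) ^ 2 + (h - k) ^ 2) / (2 * h * k)) := by
  have h1 := UpperHalfPlane.cosh_dist (upt a h hh) (upt b k hk)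
  have h2 : dist ((upt a h hh : UpperHalfPlane) : ℂ) (upt b k hk : UpperHalfPlane) ^ 2 =
      (a - b) ^ 2 + (h - k) ^ 2 := by
    rw [Complex.dist_eq, ← Complex.normSq_eq_norm_sq, Complex.normSq_apply]
    simp only [upt, Complex.sub_re, Complex.sub_im]
    change (a - b) * (a - b) + (h - k) * (h - k) = _
    ring
  rw [h2] at h1
  have h3 : (upt a h hh).im = h := rfl
  have h4 : (upt b k hk).im = k := rfl
  rw [h3, h4] at h1
  rw [← h1, Real.arcosh_cosh dist_nonneg]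

lemma hdist_eq {d : ℕ} (p q : Hyp d) (a b : ℝ) (hab : |a - b| = ‖p.x - q.x‖) :
    hdist p q = dist (upt a p.h p.pos) (upt b q.h q.pos) := by
  rw [dist_upt]
  unfold hdist
  rw [← hab, sq_abs]

lemma hdist_le_of {d e : ℕ} (p q : Hyp d) (p' q' : Hyp e) (h1 : p'.h = p.h) (h2 : q'.h = q.h)
    (hx : ‖p'.x - q'.x‖ ≤ ‖p.x - q.x‖) : hdist p' q' ≤ hdist p q := by
  have a1 := arg_ge_one p q
  have a2 := arg_ge_one p' q'
  unfold hdist
  rw [Real.arcosh_le_arcosh (by linarith) (by linarith), h1, h2]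
  have h3 := p.pos
  have h4 := q.pos
  have h5 : ‖p'.x - q'.x‖ ^ 2 ≤ ‖p.x - q.x‖ ^ 2 := pow_le_pow_left₀ (norm_nonneg _) hx 2
  have h6 : (‖p'.x - q'.x‖ ^ 2 + (p.h - q.h) ^ 2) / (2 * p.h * q.h) ≤
      (‖p.x - q.x‖ ^ 2 + (p.h - q.h) ^ 2) / (2 * p.h * q.h) :=
    div_le_div_of_nonneg_right (by linarith) (by positivity)
  linarith

/-- AD-TRI -/
theorem t_TRI : S_TRI := by
  intro d p q r
  set s := ‖p.x - q.x‖ with hs
  set t := ‖q.x - r.x‖ with ht
  have hs0 : 0 ≤ s := norm_nonneg _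
  have ht0 : 0 ≤ t := norm_nonneg _
  rw [hdist_eq p q 0 s (by rw [zero_sub, abs_neg, abs_of_nonneg hs0]),
    hdist_eq q r s (s + t) (by rw [show s - (s + t) = -t by ring, abs_neg, abs_of_nonneg ht0])]
  refine le_trans ?_ (dist_triangle _ _ _)
  rw [dist_upt]
  unfold hdist
  have h3 := p.pos
  have h4 := r.pos
  have a1 := arg_ge_one p r
  have hle : ‖p.x - r.x‖ ≤ s + t := by
    have := norm_sub_le_norm_sub_add_norm_sub p.x q.x r.x
    exact this
  have h5 : ‖p.x - r.x‖ ^ 2 ≤ (0 - (s + t)) ^ 2 := by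
    rw [zero_sub, neg_sq]
    exact pow_le_pow_left₀ (norm_nonneg _) hle 2
  have h6 : (‖p.x - r.x‖ ^ 2 + (p.h - r.h) ^ 2) / (2 * p.h * r.h) ≤
      ((0 - (s + t)) ^ 2 + (p.h - r.h) ^ 2) / (2 * p.h * r.h) :=
    div_le_div_of_nonneg_right (by linarith) (by positivity)
  have h7 : 0 ≤ ((0 - (s + t)) ^ 2 + (p.h - r.h) ^ 2) / (2 * p.h * r.h) := by positivity
  rw [Real.arcosh_le_arcosh (by linarith) (by linarith)]
  linarith

lemma hdist_nonneg {d : ℕ} (p q : Hyp d) : 0 ≤ hdist p q :=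
  Real.arcosh_nonneg (arg_ge_one p q)

end Pool.Agent.Y920.AD
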