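import Mathlib
import Pool.Agent.Y920.AD.Tri
import Pool.Agent.H983R3.Final

set_option autoImplicit false

namespace Pool.Agent.Y920.AD

open Pool.Agent.H983R3 Filter Topology

/-- The labels seen from `x` within distance `a` in the factor given by `π`. -/
def See {d e : ℕ} (π : Hyp d → Hyp e) {Lab : Type} (lab : Hyp e → Lab) (a : ℝ) (x : Hyp d) :
    Set Lab := {L | ∃ z : Hyp e, lab z = L ∧ hdist (π x) z ≤ a}

lemma See_mono {d e : ℕ} {π : Hyp d → Hyp e} {Lab : Type} {lab : Hyp e → Lab} {a b : ℝ}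
    (hab : a ≤ b) (x : Hyp d) : See π lab a x ⊆ See π lab b x := by
  rintro L ⟨z, hz, h⟩
  exact ⟨z, hz, h.trans hab⟩

/-- The covers. -/
theorem cover (hblk : S_BLK) (hf2 : Fac 2 1) (hf3 : Fac 3 2) (hcnt : S_CNT) (hcol : S_COL)
    (d : ℕ) (hd : 2 ≤ d) (Z : Set (Hyp d)) (ε : ℝ) (hε : 0 < ε)
    (hZ : ∀ x ∈ Z, ∀ y ∈ Z, x ≠ y → ε ≤ hdist x y) (r : ℝ) (hr : 0 < r) :
    ∃ (ι : Type) (X : ι → Set (Hyp d)), (⋃ i, X i) = Z ∧
      (∀ z ∈ Z, {i | ∃ y ∈ X i, hdist z y ≤ r}.encard ≤ ((d - 1 + 1 : ℕ) : ℕ∞)) ∧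
      ∃ C : ℝ, 0 ≤ C ∧ ∀ i, GrowthLE (X i) (fun t => C * (1 + t) ^ (d / 2 + 1)) := by
  classical
  obtain ⟨e, π, he, hsum, hh, hle, hge⟩ := hblk d hd
  set R : ℝ := 2 * r with hR
  set rr : ℝ := (d : ℝ) * R with hrr
  have hR0 : 0 < R := by positivity
  have hrr0 : 0 ≤ rr := by positivity
  obtain ⟨P, hP⟩ := exists_par (Real.exp (2 * rr))
  have hfac : ∀ i, Fac (e i) (e i - 1) := by
    intro i
    rcases he i with h | h
    · rw [h]; exact hf2
    · rw [h]; exact hf3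
  choose Lab lab K D hmult hgrow using fun i => hfac i P rr hrr0 hP
  obtain ⟨C, hC, hcount⟩ := hcnt d P (d / 2) e π ε (∑ i, K i) (∑ i, |D i|) hε hh hge
  have hlip : ∀ i (x y : Hyp d), hdist (π i x) (π i y) ≤ hdist x y := fun i x y =>
    hdist_le_of x y (π i x) (π i y) (hh i x) (hh i y) (hle i x y)
  let S : ∀ i, ℕ → Hyp d → Set (Lab i) := fun i j x => See (π i) (lab i) (j * R) x
  have hS : ∀ i j x, S i j x ⊆ S i (j + 1) x := by
    intro i j x
    apply See_mono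
    push_cast
    nlinarith
  have hS0 : ∀ i x, (S i 0 x).Nonempty := by
    intro i x
    exact ⟨lab i (π i x), π i x, rfl, by rw [hdist_self]; simp⟩
  have hSj : ∀ i j x, (S i j x).Nonempty := by
    intro i j x
    induction j with
    | zero => exact hS0 i x
    | succ j ih => exact ih.mono (hS i j x)
  have hgood : ∀ x, ∃ j < d, ∀ i, S i j x = S i (j + 1) x := by
    intro x
    apply hcol (d / 2) d (fun i => e i - 1) Lab (fun i j => S i j x) (fun i j => hS i j x)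
      (fun i => hS0 i x)
    · intro i
      obtain ⟨s, hs, hs2⟩ := hmult i (π i x)
      refine ⟨s, hs, ?_⟩
      rintro L ⟨z, rfl, hz⟩
      exact hs2 z hz
    · rw [hsum]; omega
  have hcross : ∀ i j (y y' : Hyp d), hdist y y' ≤ R → S i j y ⊆ S i (j + 1) y' := by
    rintro i j y y' hyy L ⟨z, hz, hd1⟩
    refine ⟨z, hz, ?_⟩
    have h1 := t_TRI _ (π i y') (π i y) z
    have h2 := hlip i y' y
    rw [hdist_symm y' y] at h2
    push_cast
    linarith
  let X : (Fin d × (∀ i, Set (Lab i))) → Set (Hyp d) := fun q =>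
    {x | x ∈ Z ∧ ∀ i, S i (q.1 : ℕ) x = q.2 i ∧ S i ((q.1 : ℕ) + 1) x = q.2 i}
  refine ⟨Fin d × (∀ i, Set (Lab i)), X, ?_, ?_, C, hC, ?_⟩
  · ext z
    simp only [Set.mem_iUnion]
    constructor
    · rintro ⟨q, hz, -⟩; exact hz
    · intro hz
      obtain ⟨j, hj, hj2⟩ := hgood z
      exact ⟨(⟨j, hj⟩, fun i => S i j z), hz, fun i => ⟨rfl, (hj2 i).symm⟩⟩
  · intro z hz
    have hinj : Set.InjOn (fun q : Fin d × (∀ i, Set (Lab i)) => q.1)
        {q | ∃ y ∈ X q, hdist z y ≤ r} := by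
      rintro ⟨j, s⟩ ⟨y, hy, hzy⟩ ⟨j', s'⟩ ⟨y', hy', hzy'⟩ hjj
      simp only at hjj
      subst hjj
      have h1 : hdist y y' ≤ R := by
        have := t_TRI _ y z y'
        rw [hdist_symm y z] at this
        rw [hR]; linarith
      have h2 : hdist y' y ≤ R := by rw [hdist_symm]; exact h1
      have : s = s' := by
        funext i
        have a1 := hy.2 i
        have a2 := hy'.2 i
        simp only at a1 a2
        apply Set.Subset.antisymm
        · rw [← a1.1, ← a2.2]; exact hcross i _ y y' h1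
        · rw [← a2.1, ← a1.2]; exact hcross i _ y' y h2
      rw [this]
    calc {q | ∃ y ∈ X q, hdist z y ≤ r}.encard
        = ((fun q : Fin d × (∀ i, Set (Lab i)) => q.1) '' {q | ∃ y ∈ X q, hdist z y ≤ r}).encard :=
          (hinj.encard_image).symm
      _ ≤ (Set.univ : Set (Fin d)).encard := Set.encard_le_encard (Set.subset_univ _)
      _ = (d : ℕ∞) := by simp
      _ = ((d - 1 + 1 : ℕ) : ℕ∞) := by rw [Nat.sub_add_cancel (by omega)]
  · rintro ⟨j, s⟩
    apply hcount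
    · intro x hx y hy hxy
      exact hZ x hx.1 y hy.1 hxy
    · intro x T n i
      by_cases hne : (s i).Nonempty
      · obtain ⟨L, hL⟩ := hne
        obtain ⟨Ci, hCi, hcov⟩ := hgrow i L (π i x) T n
        refine ⟨Ci, hCi.trans ?_, ?_⟩
        · apply Nat.mul_le_mul_right
          exact Finset.single_le_sum (f := K) (fun _ _ => Nat.zero_le _) (Finset.mem_univ i)
        · intro y hy hxy hlev
          have h1 : L ∈ S i (j : ℕ) y := by
            have := (hy.2 i).1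
            simp only at this
            rw [this]; exact hL
          obtain ⟨z, hz, hyz⟩ := h1
          have hjd : ((j : ℕ) : ℝ) * R ≤ rr := by
            rw [hrr]
            apply mul_le_mul_of_nonneg_right _ hR0.le
            exact_mod_cast j.2.le
          obtain ⟨c, hc, hcd⟩ := hcov (π i y) z hz (hyz.trans hjd) ((hlip i x y).trans hxy)
            (by rw [hh]; exact hlev)
          refine ⟨c, hc, hcd.trans ?_⟩
          apply mul_le_mul_of_nonneg_right _ (P.u_pos n).le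
          exact (le_abs_self _).trans (Finset.single_le_sum (f := fun i => |D i|)
            (fun _ _ => abs_nonneg _) (Finset.mem_univ i))
      · refine ⟨∅, by simp, ?_⟩
        intro y hy _ _
        exfalso
        apply hne
        have := (hy.2 i).1
        simp only at this
        rw [← this]
        exact hSj i _ y

/-- The family of the non-decreasing functions `f : [0,∞) → [0,∞)` with `f t ≤ C (1 + t) ^ k` for
some `C`. -/
def polyUpTo (k : ℕ) : Set (ℝ → ℝ) :=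
  {f | (∀ t, 0 ≤ t → 0 ≤ f t) ∧ (∀ s t, 0 ≤ s → s ≤ t → f s ≤ f t) ∧
    ∃ C : ℝ, ∀ t, 0 ≤ t → f t ≤ C * (1 + t) ^ k}

lemma mem_polyUpTo {C : ℝ} (hC : 0 ≤ C) (k : ℕ) : (fun t : ℝ => C * (1 + t) ^ k) ∈ polyUpTo k := by
  refine ⟨?_, ?_, C, fun t _ => le_rfl⟩
  · intro t ht; positivity
  · intro s t hs hst
    simp only
    apply mul_le_mul_of_nonneg_left _ hC
    apply pow_le_pow_left₀ (by linarith) (by linarith)

lemma polyUpTo_subset {k d : ℕ} (hkd : k < d) : polyUpTo k ⊆ oPoly d := by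
  rintro f ⟨h1, h2, C, h3⟩
  refine ⟨h1, h2, ?_⟩
  have h4 : Tendsto (fun t : ℝ => (|C| * 2 ^ k) / t) atTop (𝓝 0) :=
    tendsto_const_nhds.div_atTop tendsto_id
  apply tendsto_of_tendsto_of_tendsto_of_le_of_le' tendsto_const_nhds h4
  · filter_upwards [eventually_ge_atTop 1] with t ht
    have := h1 t (by linarith)
    positivity
  · filter_upwards [eventually_ge_atTop 1] with t ht
    have ht0 : 0 < t := by linarith
    rw [div_le_div_iff₀ (by positivity) ht0]
    have h5 : (1 + t) ^ k ≤ (2 * t) ^ k := pow_le_pow_left₀ (by linarith) (by linarith) k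
    have h6 : t ^ k * t ≤ t ^ d := by
      rw [← pow_succ]
      exact pow_le_pow_right₀ ht hkd
    have h7 : f t ≤ |C| * (2 ^ k * t ^ k) := by
      calc f t ≤ C * (1 + t) ^ k := h3 t ht0.le
        _ ≤ |C| * (1 + t) ^ k := mul_le_mul_of_nonneg_right (le_abs_self C) (by positivity)
        _ ≤ |C| * (2 * t) ^ k := mul_le_mul_of_nonneg_left h5 (abs_nonneg C)
        _ = |C| * (2 ^ k * t ^ k) := by rw [mul_pow]
    calc f t * t ≤ |C| * (2 ^ k * t ^ k) * t := mul_le_mul_of_nonneg_right h7 ht0.le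
      _ = |C| * 2 ^ k * (t ^ k * t) := by ring
      _ ≤ |C| * 2 ^ k * t ^ d := mul_le_mul_of_nonneg_left h6 (by positivity)

lemma AsdimLE_mono {d n : ℕ} {F G : Set (ℝ → ℝ)} (hFG : F ⊆ G) {Z : Set (Hyp d)}
    (h : AsdimLE F Z n) : AsdimLE G Z n := by
  intro r hr
  obtain ⟨ι, X, h1, h2, f, hf, h3⟩ := h r hr
  exact ⟨ι, X, h1, h2, f, hFG hf, h3⟩

lemma asdim_le_of {d n : ℕ} {F : Set (ℝ → ℝ)} {Z : Set (Hyp d)} (h : AsdimLE F Z n) :
    asdim F Z ≤ (n : ℕ∞) := by
  unfold asdim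
  exact iInf_le (fun n : {n : ℕ // AsdimLE F Z n} => ((n : ℕ) : ℕ∞)) ⟨n, h⟩

theorem asdimLE_all (hblk : S_BLK) (hf2 : Fac 2 1) (hf3 : Fac 3 2) (hcnt : S_CNT) (hcol : S_COL)
    (d : ℕ) (hd : 2 ≤ d) (Z : Set (Hyp d)) (hZ : IsNet Z) :
    AsdimLE (polyUpTo (d / 2 + 1)) Z (d - 1) := by
  intro r hr
  obtain ⟨⟨ε, hε, hsep⟩, -⟩ := hZ
  obtain ⟨ι, X, h1, h2, C, hC, h3⟩ := cover hblk hf2 hf3 hcnt hcol d hd Z ε hε hsep r hr
  exact ⟨ι, X, h1, h2, _, mem_polyUpTo hC _, h3⟩

end Pool.Agent.Y920.AD
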