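import Mathlib
import Pool.Agent.H983R3.Hyp

/-! Statements of the project AD, second part: the lower bound. -/

set_option autoImplicit false

namespace Pool.Agent.Y920.AD

open Pool.Agent.H983R3

/-- the non-decreasing functions of subexponential growth -/
def subExp : Set (ℝ → ℝ) :=
  {f | (∀ t, 0 ≤ t → 0 ≤ f t) ∧ (∀ s t, 0 ≤ s → s ≤ t → f s ≤ f t) ∧
    ∀ c : ℝ, 0 < c → ∃ t0 : ℝ, ∀ t, t0 ≤ t → f t ≤ Real.exp (c * t)}

/-- AD-HEX -/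
def S_HEX : Prop := ∀ (n m : ℕ) (ι : Type) (idx : (Fin n → ℕ) → ι),
  (∃ (i : Fin n) (t : ι), ∀ k ≤ m, ∃ x : Fin n → ℕ, (∀ a, x a ≤ m) ∧ x i = k ∧ idx x = t) ∨
  ∃ y : Fin (n + 1) → (Fin n → ℕ), (∀ j k a, y j a ≤ y k a + 1) ∧ (∀ j a, y j a ≤ m) ∧
    Function.Injective (fun j => idx (y j))

/-- AD-LOW (uses S_HEX as a hypothesis) -/
def S_LOW : Prop := ∀ (n : ℕ) (Z : Set (Hyp (n + 2))), IsNet Z → ¬ AsdimLE subExp Z n

end Pool.Agent.Y920.AD
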