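import Mathlib
import Pool.Agent.Y920.AD.Asm
import Pool.Agent.Y920.AD.Stm2

set_option autoImplicit false

namespace Pool.Agent.Y920.AD

open Pool.Agent.H983R3 Filter Topology

lemma oPoly_subset_subExp (d : ℕ) : oPoly d ⊆ subExp := by
  rintro f ⟨h1, h2, h3⟩
  refine ⟨h1, h2, fun c hc => ?_⟩
  have h4 : ∀ᶠ t : ℝ in atTop, f t / t ^ d < 1 := h3.eventually (gt_mem_nhds one_pos)
  have h5 : ∀ᶠ t : ℝ in atTop, ‖t ^ d‖ ≤ 1 * ‖Real.exp (c * t)‖ :=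
    (isLittleO_pow_exp_pos_mul_atTop (k := d) hc).def one_pos
  obtain ⟨t0, ht0⟩ := eventually_atTop.1 ((h4.and h5).and (eventually_gt_atTop 0))
  refine ⟨t0, fun t ht => ?_⟩
  obtain ⟨⟨a1, a2⟩, a3⟩ := ht0 t ht
  have a4 : 0 < t ^ d := pow_pos a3 d
  rw [div_lt_one a4] at a1
  rw [Real.norm_of_nonneg a4.le, Real.norm_of_nonneg (Real.exp_pos _).le, one_mul] at a2
  linarith

lemma polyUpTo_subset_subExp (k : ℕ) : polyUpTo k ⊆ subExp :=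
  (polyUpTo_subset (Nat.lt_succ_self k)).trans (oPoly_subset_subExp _)

lemma AsdimLE_mono_n {d k n : ℕ} (hkn : k ≤ n) {F : Set (ℝ → ℝ)} {Z : Set (Hyp d)}
    (h : AsdimLE F Z k) : AsdimLE F Z n := by
  intro r hr
  obtain ⟨ι, X, h1, h2, f, hf, h3⟩ := h r hr
  refine ⟨ι, X, h1, fun z hz => (h2 z hz).trans ?_, f, hf, h3⟩
  exact_mod_cast Nat.succ_le_succ hkn

lemma le_asdim_of {d n : ℕ} {F : Set (ℝ → ℝ)} {Z : Set (Hyp d)} (h : ¬ AsdimLE F Z n) :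
    ((n + 1 : ℕ) : ℕ∞) ≤ asdim F Z := by
  unfold asdim
  refine le_iInf fun k => ?_
  by_contra hcon
  push Not at hcon
  have hk : (k : ℕ) < n + 1 := by exact_mod_cast hcon
  exact h (AsdimLE_mono_n (Nat.lt_succ_iff.1 hk) k.2)

theorem exact (hblk : S_BLK) (hf2 : Fac 2 1) (hf3 : Fac 3 2) (hcnt : S_CNT) (hcol : S_COL)
    (hlow : S_LOW) (d : ℕ) (hd : 2 ≤ d) (Z : Set (Hyp d)) (hZ : IsNet Z) (F : Set (ℝ → ℝ))
    (h1 : polyUpTo (d / 2 + 1) ⊆ F) (h2 : F ⊆ subExp) : asdim F Z = ((d - 1 : ℕ) : ℕ∞) := by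
  apply le_antisymm
  · exact asdim_le_of (AsdimLE_mono h1 (asdimLE_all hblk hf2 hf3 hcnt hcol d hd Z hZ))
  · obtain ⟨n, rfl⟩ : ∃ n, d = n + 2 := ⟨d - 2, by omega⟩
    have h3 : ¬ AsdimLE F Z n := fun h => hlow n Z hZ (AsdimLE_mono h2 h)
    exact le_asdim_of h3

end Pool.Agent.Y920.AD
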